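import Pool.Agent.N728.QG.Def
import Pool.Agent.N756.QL.STA

set_option autoImplicit false

/-! Project QG (helper728), stage A for the primes: the assembly (helper531), after `Pool.Agent.N756.QL.STA`. -/

namespace Pool.Agent.N531.QG

open Finset Pool.Agent.N728.QL Pool.Agent.N728.QG Pool.Agent.N756.QL Filter Topology

noncomputable section

/-! ### The weights -/

lemma U0b_mono {C C' : ℝ} {k k' B D : ℕ} {W : ℕ → ℝ} (hC : C ≤ C') (hk : k ≤ k')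
    (h : U0b C k B D W) : U0b C' k' B D W := by
  intro d1 d2 X1 X2 I1 I2 h1 h2 h3 h4 h5 h6 h7 h8 h9 h10
  refine (h d1 d2 X1 X2 I1 I2 h1 h2 ((Nat.pow_le_pow_right h1 hk).trans h3)
    ((Nat.pow_le_pow_right h2 hk).trans h4) h5 h6 h7 h8 h9 h10).trans ?_
  have hX : (0 : ℝ) ≤ (X2 : ℝ) - X1 := sub_nonneg.2 (by exact_mod_cast h5)
  have hI : (0 : ℝ) ≤ (I2 : ℝ) - I1 := sub_nonneg.2 (by exact_mod_cast h8)
  exact div_le_div_of_nonneg_right (mul_le_mul_of_nonneg_right hC (mul_nonneg hX hI)) (by positivity)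

lemma U0b_add {C C' : ℝ} {k B D : ℕ} {W W' : ℕ → ℝ} (h : U0b C k B D W) (h' : U0b C' k B D W') :
    U0b (C + C') k B D (fun n => W n + W' n) := by
  intro d1 d2 X1 X2 I1 I2 h1 h2 h3 h4 h5 h6 h7 h8 h9 h10
  have a := h d1 d2 X1 X2 I1 I2 h1 h2 h3 h4 h5 h6 h7 h8 h9 h10
  have b := h' d1 d2 X1 X2 I1 I2 h1 h2 h3 h4 h5 h6 h7 h8 h9 h10
  simp only [sum_add_distrib]
  refine (add_le_add a b).trans (le_of_eq ?_)
  ring

lemma U1b_mono {C C' : ℝ} {k k' B D : ℕ} {W : ℕ → ℝ} (hC : C ≤ C') (hk : k ≤ k')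
    (h : U1b C k B D W) : U1b C' k' B D W := by
  intro w y M X I1 I2 h1 h2 h3 h4 h5 h6 h7 h8 h9 h10
  have hM : 1 ≤ M := Nat.pos_of_dvd_of_pos h5 (PP_pos w y)
  refine (h w y M X I1 I2 h1 h2 ((Nat.pow_le_pow_right (h1.trans h2) hk).trans h3)
    ((Nat.pow_le_pow_right hM hk).trans h4) h5 h6 h7 h8 h9 h10).trans ?_
  have hI : (0 : ℝ) ≤ (I2 : ℝ) - I1 := sub_nonneg.2 (by exact_mod_cast h8)
  have h0 : (0 : ℝ) ≤ (M : ℝ) / Nat.totient M := by positivity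
  have h1' : (0 : ℝ) ≤ (X : ℝ) * ((I2 : ℝ) - I1) := mul_nonneg (by positivity) hI
  exact mul_le_mul_of_nonneg_right (mul_le_mul_of_nonneg_right
    (mul_le_mul_of_nonneg_right hC h0) (by positivity)) h1'

lemma U1b_add {C C' : ℝ} {k B D : ℕ} {W W' : ℕ → ℝ} (h : U1b C k B D W) (h' : U1b C' k B D W') :
    U1b (C + C') k B D (fun n => W n + W' n) := by
  intro w y M X I1 I2 h1 h2 h3 h4 h5 h6 h7 h8 h9 h10
  have a := h w y M X I1 I2 h1 h2 h3 h4 h5 h6 h7 h8 h9 h10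
  have b := h' w y M X I1 I2 h1 h2 h3 h4 h5 h6 h7 h8 h9 h10
  simp only [mul_add, sum_add_distrib]
  refine (add_le_add a b).trans (le_of_eq ?_)
  ring

/-! ### The sum of the `DD` -/

lemma dd_sum' {φ : ℕ → ℕ → ℝ} (hφ : ∀ u v, |φ u v| ≤ 1) {N : ℕ → ℝ} (hN : ∀ n, 0 ≤ N n)
    {w y M0 T Y : ℕ} {ρ δ A Z : ℝ} (hδ : 0 ≤ δ) (hZ : 0 ≤ Z)
    (hdia : ∑ M ∈ (PP w y).divisors.filter (fun M => M ≤ M0), ∑ j ∈ Wn ρ M, ∑ _m ∈ Dv ρ M j,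
      AA N w y ρ T Y M j ≤ A)
    (hoff : ∀ M : ℕ, M ∣ PP w y → M ≤ M0 → ∀ j ∈ Wn ρ M, ∀ m ∈ Dv ρ M j, ∀ m' ∈ Dv ρ M j, m ≠ m' →
      |∑ x ∈ Icc 1 ⌊(T : ℝ) / ρ ^ (j + 1)⌋₊, ∑ t ∈ Icc 1 ⌊(Y : ℝ) * ρ ^ (j + 1) / M⌋₊,
        rg w y x * rg w y t * N (M * x * t) * (φ (m * x) (M / m * t) * φ (m' * x) (M / m' * t))| ≤
      δ * (Z / M)) :
    ∑ M ∈ (PP w y).divisors.filter (fun M => M ≤ M0), ∑ j ∈ Wn ρ M, DD φ N w y ρ T Y M j ≤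
      A + δ * (VW w y)⁻¹ ^ 4 * Z := by
  have e1 : ∑ M ∈ (PP w y).divisors.filter (fun M => M ≤ M0), ∑ j ∈ Wn ρ M,
      DD φ N w y ρ T Y M j ≤
      ∑ M ∈ (PP w y).divisors.filter (fun M => M ≤ M0), (∑ j ∈ Wn ρ M, ∑ _m ∈ Dv ρ M j,
        AA N w y ρ T Y M j + δ * (Z / M) * (M.divisors.card : ℝ) ^ 2) := by
    refine sum_le_sum fun M hM => ?_
    rw [mem_filter, Nat.mem_divisors] at hM
    have hnn : 0 ≤ δ * (Z / M) := mul_nonneg hδ (by positivity)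
    have h1 : ∀ j ∈ Wn ρ M, DD φ N w y ρ T Y M j ≤
        ∑ _m ∈ Dv ρ M j, AA N w y ρ T Y M j + δ * (Z / M) * ((Dv ρ M j).card : ℝ) ^ 2 := by
      intro j hj
      rw [sum_const, nsmul_eq_mul]
      refine (dd_expand hφ hN w y ρ T Y M j).trans (add_le_add le_rfl ?_)
      calc _ ≤ ∑ m ∈ Dv ρ M j, ∑ m' ∈ (Dv ρ M j).erase m, δ * (Z / M) := by
            refine sum_le_sum fun m hm => sum_le_sum fun m' hm' => ?_
            rw [mem_erase] at hm'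
            exact hoff M hM.1.1 hM.2 j hj m hm m' hm'.2 hm'.1.symm
        _ ≤ ∑ m ∈ Dv ρ M j, ∑ m' ∈ Dv ρ M j, δ * (Z / M) := by
            refine sum_le_sum fun m _ => ?_
            exact sum_le_sum_of_subset_of_nonneg (erase_subset _ _) fun _ _ _ => hnn
        _ = _ := by
            rw [sum_const, sum_const, nsmul_eq_mul, nsmul_eq_mul]
            ring
    calc _ ≤ ∑ j ∈ Wn ρ M, (∑ _m ∈ Dv ρ M j, AA N w y ρ T Y M j +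
        δ * (Z / M) * ((Dv ρ M j).card : ℝ) ^ 2) := sum_le_sum h1
      _ = ∑ j ∈ Wn ρ M, ∑ _m ∈ Dv ρ M j, AA N w y ρ T Y M j +
        δ * (Z / M) * ∑ j ∈ Wn ρ M, ((Dv ρ M j).card : ℝ) ^ 2 := by
          rw [sum_add_distrib, mul_sum]
      _ ≤ _ := by
          have := mul_le_mul_of_nonneg_left (sum_card_Dv_sq ρ M) hnn
          linarith
  rw [sum_add_distrib] at e1
  have e3 : ∑ M ∈ (PP w y).divisors.filter (fun M => M ≤ M0),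
      δ * (Z / M) * (M.divisors.card : ℝ) ^ 2 ≤ δ * (VW w y)⁻¹ ^ 4 * Z := by
    calc _ ≤ ∑ M ∈ (PP w y).divisors, δ * (Z / M) * (M.divisors.card : ℝ) ^ 2 :=
          sum_le_sum_of_subset_of_nonneg (filter_subset _ _) fun M _ _ =>
            mul_nonneg (mul_nonneg hδ (by positivity)) (by positivity)
      _ = δ * Z * ∑ M ∈ (PP w y).divisors, (M.divisors.card : ℝ) ^ 2 / (M : ℝ) := by
          rw [mul_sum]
          refine sum_congr rfl fun M _ => ?_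
          ring
      _ ≤ δ * Z * (VW w y)⁻¹ ^ 4 :=
          mul_le_mul_of_nonneg_left (sum4 w y) (mul_nonneg hδ hZ)
      _ = _ := by ring
  linarith

/-! ### The ranges -/

/-- the bound of OFF -/
def OFFAt (G : Polynomial ℤ) (c : ℤ) (δ : ℝ) (z z1 w y M0 K B : ℕ) (F : ℤ → ℝ) : Prop :=
  ∀ X Y M m m' : ℕ, M ∣ PP w y → M ≤ M0 → m ∣ M → m' ∣ M →
  B ≤ X ^ (G.natDegree + 2) → X ≤ B → Y ≤ K * B → B ≤ M / m * Y → B ≤ M / m' * Y →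
  |∑ x ∈ Icc 1 X, ∑ t ∈ Icc 1 Y, rg w y x * rg w y t * dz z z1 ((M : ℤ) * x * t + c) *
      F (((M / m : ℕ) : ℤ) * t - G.eval ((m : ℤ) * x)) *
      F (((M / m' : ℕ) : ℤ) * t - G.eval ((m' : ℤ) * x))| ≤
    δ * ((X : ℝ) * Y)

/-- the bound of SP -/
def SPAt (G : Polynomial ℤ) (P : ℕ) (ε η : ℝ) (w y M0 K B H : ℕ) (F : ℤ → ℝ) : Prop :=
  ∀ X Y M m m' : ℕ, M ∣ PP w y → M ≤ M0 → m ∣ M → m' ∣ M → m ≠ m' →
  (H : ℝ) ≤ η * (X : ℝ) ^ G.natDegree → B ≤ X ^ (G.natDegree + 2) → Y ≤ K * B →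
  (∀ x : ℕ, 1 ≤ x → x ≤ X → 0 ≤ (B : ℤ) + G.eval ((m : ℤ) * x) ∧ 0 ≤ (B : ℤ) + G.eval ((m' : ℤ) * x) ∧
    5 * (B : ℤ) + G.eval ((m : ℤ) * x) ≤ ((M / m : ℕ) : ℤ) * Y ∧
    5 * (B : ℤ) + G.eval ((m' : ℤ) * x) ≤ ((M / m' : ℕ) : ℤ) * Y) →
  ∀ ψ : ℤ → ℝ, (∀ n, |ψ n| ≤ 1) → (∀ n, ψ (n + P) = ψ n) →
  |∑ x ∈ Icc 1 X, ∑ t ∈ Icc 1 Y, rg w y x * rg w y t * ψ ((M : ℤ) * x * t) *
      F (((M / m : ℕ) : ℤ) * t - G.eval ((m : ℤ) * x)) *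
      F (((M / m' : ℕ) : ℤ) * t - G.eval ((m' : ℤ) * x))| ≤
    ε * ((X : ℝ) * Y)

/-- the weight -/
def ph (G : Polynomial ℤ) (T : ℕ) (F : ℤ → ℝ) (u v : ℕ) : ℝ :=
  if 1 ≤ u ∧ u ≤ T then F ((v : ℤ) - G.eval (u : ℤ)) else 0

lemma rho_le {ρ : ℝ} {M j : ℕ} (hM : 1 ≤ M) (hρ1 : 1 < ρ) (hρ2 : ρ ≤ 2) (hj : j ∈ Wn ρ M) :
    ρ ^ (j + 1) ≤ 2 * M := by
  unfold Wn at hj
  rw [mem_image] at hj
  obtain ⟨m0, hm0, hjm⟩ := hj
  have hm0M : m0 ∣ M := (Nat.mem_divisors.1 hm0).1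
  have hm1 : 1 ≤ m0 := Nat.pos_of_dvd_of_pos hm0M hM
  have hmr : (1 : ℝ) ≤ m0 := by exact_mod_cast hm1
  have hlogρ : 0 < Real.log ρ := Real.log_pos hρ1
  have h0 : 0 ≤ Real.log m0 / Real.log ρ := div_nonneg (Real.log_nonneg hmr) hlogρ.le
  have h1 := Nat.floor_le h0
  unfold jw at hjm
  rw [hjm, le_div_iff₀ hlogρ] at h1
  have h3 : Real.log (ρ ^ j) ≤ Real.log m0 := by rw [Real.log_pow]; exact h1
  have h4 : ρ ^ j ≤ m0 := (Real.log_le_log_iff (by positivity) (by linarith)).1 h3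
  have h5 : (m0 : ℝ) ≤ M := by exact_mod_cast Nat.le_of_dvd hM hm0M
  rw [pow_succ]
  have h6 : 0 < ρ ^ j := by positivity
  nlinarith

/-- the conclusion of RNG -/
def RNGAt (D K B T M0 M j : ℕ) (ρ : ℝ) : Prop :=
  B ≤ ⌊(T : ℝ) / ρ ^ (j + 1)⌋₊ ^ (2 * D) ∧ ⌊(T : ℝ) / ρ ^ (j + 1)⌋₊ ≤ T ∧
  T ≤ 4 * M0 * ⌊(T : ℝ) / ρ ^ (j + 1)⌋₊ ∧
  B ≤ ⌊((K * B : ℕ) : ℝ) * ρ ^ (j + 1) / M⌋₊ ^ 2 ∧ ⌊((K * B : ℕ) : ℝ) * ρ ^ (j + 1) / M⌋₊ ≤ B ^ 2 ∧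
  (⌊(T : ℝ) / ρ ^ (j + 1)⌋₊ : ℝ) * ⌊((K * B : ℕ) : ℝ) * ρ ^ (j + 1) / M⌋₊ ≤ T * (K * B) / M ∧
  ∀ m ∈ Dv ρ M j, K * B ≤ M / m * ⌊((K * B : ℕ) : ℝ) * ρ ^ (j + 1) / M⌋₊ + M0 ∧ (m : ℝ) < ρ ^ (j + 1)

lemma K14 {G : Polynomial ℤ} {K B T : ℕ} (hB : 1 ≤ B) (hT : 1 ≤ T) (h : Rge G K B T) : 14 ≤ K := by
  obtain ⟨h1, h2⟩ := h 1 le_rfl hT
  by_contra hcon
  have h3 : (K : ℤ) ≤ 13 := by omega
  have h4 : (1 : ℤ) ≤ B := by exact_mod_cast hB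
  nlinarith

/-- one off-diagonal term -/
lemma off_le {G : Polynomial ℤ} {c : ℤ} {δ ε η : ℝ} {z' z z1 w y M0 K B H T : ℕ} {F : ℤ → ℝ}
    (hO : OFFAt G c δ z' z1 w y M0 (2 * K) B F) (hO' : OFFAt G c δ z' z w y M0 (2 * K) B F)
    (hS : SPAt G (PP 0 z') (ε * VW 0 z') η w y M0 (2 * K) B H F) {ρ : ℝ}
    (hB1 : 1 ≤ B) (hT : B ≤ T ^ (G.natDegree + 1)) (hT2 : T ≤ B)
    (hM0 : ((4 * M0) ^ (G.natDegree + 2)) ^ (G.natDegree + 1) ≤ B) (hM0B : M0 ≤ B)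
    (hρ1 : 1 < ρ) (hρ2 : ρ ≤ 2) (hη : 0 < η)
    (hH : (H : ℝ) ≤ η / (4 * M0) ^ G.natDegree * (T : ℝ) ^ G.natDegree)
    (hRge : Rge G K B T)
    (hδ : 0 ≤ 2 * δ + 2 * ε) {M j m m' : ℕ} (hM : M ∣ PP w y) (hMM : M ≤ M0) (hj : j ∈ Wn ρ M)
    (hR : RNGAt (G.natDegree + 1) K B T M0 M j ρ)
    (hm : m ∈ Dv ρ M j) (hm' : m' ∈ Dv ρ M j) (hmm : m ≠ m') :
    |∑ x ∈ Icc 1 ⌊(T : ℝ) / ρ ^ (j + 1)⌋₊, ∑ t ∈ Icc 1 ⌊((K * B : ℕ) : ℝ) * ρ ^ (j + 1) / M⌋₊,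
      rg w y x * rg w y t * NN c z z1 (M * x * t) *
        (ph G T F (m * x) (M / m * t) * ph G T F (m' * x) (M / m' * t))| ≤
      (2 * δ + 2 * ε) * ((T : ℝ) * (K * B) / M) := by
  have hM1 : 1 ≤ M := Nat.pos_of_dvd_of_pos hM (PP_pos w y)
  obtain ⟨r1, r2, r3, r4, r5, r6, r7⟩ := hR
  have hmx : ∀ x ∈ Icc 1 ⌊(T : ℝ) / ρ ^ (j + 1)⌋₊, m * x ≤ T := fun x hx => mx_le hρ1 hm hx
  have hmx' : ∀ x ∈ Icc 1 ⌊(T : ℝ) / ρ ^ (j + 1)⌋₊, m' * x ≤ T := fun x hx => mx_le hρ1 hm' hx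
  have hYle : ⌊((K * B : ℕ) : ℝ) * ρ ^ (j + 1) / M⌋₊ ≤ 2 * K * B := by
    have hMr : (0 : ℝ) < M := by exact_mod_cast hM1
    have h1 : ((K * B : ℕ) : ℝ) * ρ ^ (j + 1) / M ≤ ((2 * K * B : ℕ) : ℝ) := by
      rw [div_le_iff₀ hMr]
      have h2 := rho_le hM1 hρ1 hρ2 hj
      have h3 : (0 : ℝ) ≤ ((K * B : ℕ) : ℝ) := Nat.cast_nonneg _
      calc ((K * B : ℕ) : ℝ) * ρ ^ (j + 1) ≤ ((K * B : ℕ) : ℝ) * (2 * M) :=
            mul_le_mul_of_nonneg_left h2 h3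
        _ = ((2 * K * B : ℕ) : ℝ) * M := by push_cast; ring
    exact_mod_cast (Nat.floor_le_floor h1).trans (le_of_eq (Nat.floor_natCast _))
  set X := ⌊(T : ℝ) / ρ ^ (j + 1)⌋₊ with hX
  set Y := ⌊((K * B : ℕ) : ℝ) * ρ ^ (j + 1) / M⌋₊ with hY
  have hdm : m ∣ M := (Nat.mem_divisors.1 (mem_Dv.1 hm).1).1
  have hdm' : m' ∣ M := (Nat.mem_divisors.1 (mem_Dv.1 hm').1).1
  have hm1 : 1 ≤ m := Nat.pos_of_dvd_of_pos hdm hM1
  have hm1' : 1 ≤ m' := Nat.pos_of_dvd_of_pos hdm' hM1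
  have hM01 : 1 ≤ M0 := hM1.trans hMM
  have hM0r : (1 : ℝ) ≤ M0 := by exact_mod_cast hM01
  have hT1 : 1 ≤ T := by
    by_contra h0
    have : T = 0 := by omega
    rw [this, zero_pow (by omega)] at hT
    omega
  have hK := K14 hB1 hT1 hRge
  -- the size of `X`
  have hT4 : (4 * M0) ^ (G.natDegree + 2) ≤ T := by
    by_contra hcon
    have h1 : T ^ (G.natDegree + 1) < ((4 * M0) ^ (G.natDegree + 2)) ^ (G.natDegree + 1) :=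
      Nat.pow_lt_pow_left (not_le.1 hcon) (by omega)
    omega
  have hXB : B ≤ X ^ (G.natDegree + 2) := by
    have h1 : T ^ (G.natDegree + 2) ≤ (4 * M0) ^ (G.natDegree + 2) * X ^ (G.natDegree + 2) := by
      rw [← mul_pow]
      exact Nat.pow_le_pow_left r3 _
    have h2 : B * (4 * M0) ^ (G.natDegree + 2) ≤ (4 * M0) ^ (G.natDegree + 2) * X ^ (G.natDegree + 2) := by
      refine le_trans ?_ h1
      calc B * (4 * M0) ^ (G.natDegree + 2) ≤ T ^ (G.natDegree + 1) * T := Nat.mul_le_mul hT hT4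
        _ = T ^ (G.natDegree + 2) := by ring
    have h3 : 0 < (4 * M0) ^ (G.natDegree + 2) := by positivity
    rw [mul_comm] at h2
    exact le_of_mul_le_mul_left h2 h3
  have hHX : (H : ℝ) ≤ η * (X : ℝ) ^ G.natDegree := by
    refine hH.trans ?_
    have h1 : (T : ℝ) ^ G.natDegree ≤ (4 * M0) ^ G.natDegree * (X : ℝ) ^ G.natDegree := by
      rw [← mul_pow]
      exact pow_le_pow_left₀ (by positivity) (by exact_mod_cast r3) _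
    have h2 : (0 : ℝ) < (4 * M0) ^ G.natDegree := by positivity
    calc η / (4 * M0) ^ G.natDegree * (T : ℝ) ^ G.natDegree ≤
          η / (4 * M0) ^ G.natDegree * ((4 * M0) ^ G.natDegree * (X : ℝ) ^ G.natDegree) :=
          mul_le_mul_of_nonneg_left h1 (by positivity)
      _ = _ := by field_simp
  have hKB : 14 * B ≤ K * B := Nat.mul_le_mul_right B hK
  have d1 : B ≤ M / m * Y := by
    have := (r7 m hm).1
    omega
  have d2 : B ≤ M / m' * Y := by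
    have := (r7 m' hm').1
    omega
  have hrange : ∀ x : ℕ, 1 ≤ x → x ≤ X → 0 ≤ (B : ℤ) + G.eval ((m : ℤ) * x) ∧
      0 ≤ (B : ℤ) + G.eval ((m' : ℤ) * x) ∧
      5 * (B : ℤ) + G.eval ((m : ℤ) * x) ≤ ((M / m : ℕ) : ℤ) * Y ∧
      5 * (B : ℤ) + G.eval ((m' : ℤ) * x) ≤ ((M / m' : ℕ) : ℤ) * Y := by
    intro x hx1 hx2
    have a1 := hRge (m * x) (Nat.mul_pos hm1 hx1) (hmx x (mem_Icc.2 ⟨hx1, hx2⟩))
    have a2 := hRge (m' * x) (Nat.mul_pos hm1' hx1) (hmx' x (mem_Icc.2 ⟨hx1, hx2⟩))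
    have b1 := (r7 m hm).1
    have b2 := (r7 m' hm').1
    have b1' : (K : ℤ) * B ≤ ((M / m : ℕ) : ℤ) * Y + M0 := by exact_mod_cast b1
    have b2' : (K : ℤ) * B ≤ ((M / m' : ℕ) : ℤ) * Y + M0 := by exact_mod_cast b2
    have b3 : 14 * (B : ℤ) ≤ (K : ℤ) * B := by exact_mod_cast hKB
    have b4 : (M0 : ℤ) ≤ B := by exact_mod_cast hM0B
    rw [Nat.cast_mul] at a1 a2
    obtain ⟨a3, a4⟩ := a1
    obtain ⟨a5, a6⟩ := a2
    have b5 : (0 : ℤ) ≤ B := by positivity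
    refine ⟨by linarith, by linarith, by linarith, by linarith⟩
  have h1 := hO X Y M m m' hM hMM hdm hdm' hXB (r2.trans hT2) hYle d1 d2
  have h1' := hO' X Y M m m' hM hMM hdm hdm' hXB (r2.trans hT2) hYle d1 d2
  have hψ1 : ∀ n : ℤ, |rg 0 z' (n + c)| ≤ 1 := by
    intro n
    rw [abs_of_nonneg (rg_nonneg _ _ _)]
    exact rg_le_one _ _ _
  have hψ2 : ∀ n : ℤ, rg 0 z' (n + (PP 0 z' : ℕ) + c) = rg 0 z' (n + c) := by
    intro n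
    have : Rg 0 z' (n + (PP 0 z' : ℕ) + c) ↔ Rg 0 z' (n + c) := by
      unfold Rg
      refine forall_congr' fun p => forall_congr' fun hp => forall_congr' fun hp0 =>
        forall_congr' fun hpz => ?_
      have h3 : (p : ℤ) ∣ ((PP 0 z' : ℕ) : ℤ) := by exact_mod_cast prime_dvd_PP hp hp0 hpz
      have h4 : n + (PP 0 z' : ℕ) + c = (n + c) + ((PP 0 z' : ℕ) : ℤ) := by ring
      rw [h4, dvd_add_left h3]
    unfold rg
    by_cases h : Rg 0 z' (n + c)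
    · rw [if_pos h, if_pos (this.2 h)]
    · rw [if_neg h, if_neg fun h' => h (this.1 h')]
  have h2 := hS X Y M m m' hM hMM hdm hdm' hmm hHX hXB hYle hrange (fun n => rg 0 z' (n + c)) hψ1 hψ2
  have hV := VW_pos 0 z'
  have e : ∑ x ∈ Icc 1 X, ∑ t ∈ Icc 1 Y,
      rg w y x * rg w y t * NN c z z1 (M * x * t) *
        (ph G T F (m * x) (M / m * t) * ph G T F (m' * x) (M / m' * t)) =
      (∑ x ∈ Icc 1 X, ∑ t ∈ Icc 1 Y, rg w y x * rg w y t * dz z' z1 ((M : ℤ) * x * t + c) *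
        F (((M / m : ℕ) : ℤ) * t - G.eval ((m : ℤ) * x)) *
        F (((M / m' : ℕ) : ℤ) * t - G.eval ((m' : ℤ) * x))) +
      (∑ x ∈ Icc 1 X, ∑ t ∈ Icc 1 Y, rg w y x * rg w y t * dz z' z ((M : ℤ) * x * t + c) *
        F (((M / m : ℕ) : ℤ) * t - G.eval ((m : ℤ) * x)) *
        F (((M / m' : ℕ) : ℤ) * t - G.eval ((m' : ℤ) * x))) +
      2 * (VW 0 z')⁻¹ * ∑ x ∈ Icc 1 X, ∑ t ∈ Icc 1 Y, rg w y x * rg w y t *
        rg 0 z' ((M : ℤ) * x * t + c) *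
        F (((M / m : ℕ) : ℤ) * t - G.eval ((m : ℤ) * x)) *
        F (((M / m' : ℕ) : ℤ) * t - G.eval ((m' : ℤ) * x)) := by
    rw [mul_sum, ← sum_add_distrib, ← sum_add_distrib]
    refine sum_congr rfl fun x hx => ?_
    rw [mul_sum, ← sum_add_distrib, ← sum_add_distrib]
    refine sum_congr rfl fun t _ => ?_
    have hx1 := (mem_Icc.1 hx).1
    have f1 : ph G T F (m * x) (M / m * t) = F (((M / m : ℕ) : ℤ) * t - G.eval ((m : ℤ) * x)) := by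
      unfold ph
      rw [if_pos ⟨Nat.mul_pos hm1 hx1, hmx x hx⟩, Nat.cast_mul, Nat.cast_mul]
    have f2 : ph G T F (m' * x) (M / m' * t) =
        F (((M / m' : ℕ) : ℤ) * t - G.eval ((m' : ℤ) * x)) := by
      unfold ph
      rw [if_pos ⟨Nat.mul_pos hm1' hx1, hmx' x hx⟩, Nat.cast_mul, Nat.cast_mul]
    have f4 : lz z' ((M : ℤ) * x * t + c) = (VW 0 z')⁻¹ * rg 0 z' ((M : ℤ) * x * t + c) := by
      unfold lz rg
      split_ifs <;> ring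
    have f3 : NN c z z1 (M * x * t) = dz z' z1 ((M : ℤ) * x * t + c) +
        dz z' z ((M : ℤ) * x * t + c) + 2 * ((VW 0 z')⁻¹ * rg 0 z' ((M : ℤ) * x * t + c)) := by
      rw [← f4]
      unfold NN dz
      rw [Nat.cast_mul, Nat.cast_mul]
      ring
    rw [f1, f2, f3]
    ring
  rw [e]
  have h3 : (X : ℝ) * Y ≤ (T : ℝ) * (K * B) / M := r6
  have h5 : |2 * (VW 0 z')⁻¹ * ∑ x ∈ Icc 1 X, ∑ t ∈ Icc 1 Y, rg w y x * rg w y t *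
        rg 0 z' ((M : ℤ) * x * t + c) *
        F (((M / m : ℕ) : ℤ) * t - G.eval ((m : ℤ) * x)) *
        F (((M / m' : ℕ) : ℤ) * t - G.eval ((m' : ℤ) * x))| ≤ 2 * ε * ((X : ℝ) * Y) := by
    rw [abs_mul, abs_of_nonneg (by positivity : (0 : ℝ) ≤ 2 * (VW 0 z')⁻¹)]
    calc _ ≤ 2 * (VW 0 z')⁻¹ * (ε * VW 0 z' * ((X : ℝ) * Y)) :=
          mul_le_mul_of_nonneg_left h2 (by positivity)
      _ = _ := by field_simp
  calc _ ≤ _ := (abs_add_le _ _).trans (add_le_add (abs_add_le _ _) le_rfl)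
    _ ≤ δ * ((X : ℝ) * Y) + δ * ((X : ℝ) * Y) + 2 * ε * ((X : ℝ) * Y) :=
        add_le_add (add_le_add h1 h1') h5
    _ = (2 * δ + 2 * ε) * ((X : ℝ) * Y) := by ring
    _ ≤ _ := mul_le_mul_of_nonneg_left h3 hδ

/-- finitely many conditions with three parameters -/
lemma uniform3 {ι : Type} (S : Finset ι) (Q : ι → ℕ → ℝ → ℕ → Prop)
    (hmono : ∀ s q q' η η' b b', q ∣ q' → η' ≤ η → b ≤ b' → Q s q η b → Q s q' η' b')
    (h : ∀ s ∈ S, ∃ q : ℕ, 1 ≤ q ∧ ∃ η : ℝ, 0 < η ∧ ∃ b : ℕ, Q s q η b) :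
    ∃ q : ℕ, 1 ≤ q ∧ ∃ η : ℝ, 0 < η ∧ ∃ b : ℕ, ∀ s ∈ S, Q s q η b := by
  classical
  induction S using Finset.induction_on with
  | empty => exact ⟨1, le_rfl, 1, one_pos, 0, fun s hs => absurd hs (notMem_empty s)⟩
  | insert s S hs ih =>
    obtain ⟨p1, g1, η1, h1, b1, q1⟩ := ih fun t ht => h t (mem_insert_of_mem ht)
    obtain ⟨p2, g2, η2, h2, b2, q2⟩ := h s (mem_insert_self s S)
    refine ⟨p1 * p2, Nat.mul_pos g1 g2, min η1 η2, lt_min h1 h2, max b1 b2, fun t ht => ?_⟩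
    rcases mem_insert.1 ht with rfl | ht
    · exact hmono _ _ _ _ _ _ _ (dvd_mul_left _ _) (min_le_right _ _) (le_max_right _ _) q2
    · exact hmono _ _ _ _ _ _ _ (dvd_mul_right _ _) (min_le_left _ _) (le_max_left _ _) (q1 t ht)

/-- the support of `ph` -/
lemma ph_zero {G : Polynomial ℤ} {K B T : ℕ} {F : ℤ → ℝ} (hR : Rge G K B T) (hF : Adm5 F B) :
    ∀ u v, u ≤ T → K * B < v → ph G T F u v = 0 := by
  intro u v hu hv
  unfold ph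
  split_ifs with h
  · apply hF.2
    intro h'
    obtain ⟨-, h2⟩ := hR u h.1 h.2
    have h3 : (K : ℤ) * B < v := by exact_mod_cast hv
    have h4 : (0 : ℤ) ≤ (K : ℤ) * B := by positivity
    linarith [h'.2]
  · rfl

theorem t_AP (hCORE : S_CORE) (hDIA : S_DIA) (hEEB : S_EEB)
    (hU0 : ∀ c : ℤ, c ≠ 0 → Pool.Agent.N728.QG.S_U0 c)
    (hU1 : ∀ c : ℤ, c ≠ 0 → Pool.Agent.N728.QG.S_U1 c) (hRNG : S_RNG)
    (hOFF : ∀ (G : Polynomial ℤ) (c : ℤ), 1 ≤ G.natDegree → c ≠ 0 → Pool.Agent.N728.QG.S_OFF G c)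
    (hSP : ∀ G : Polynomial ℤ, 1 ≤ G.natDegree → Pool.Agent.N728.QG.S_SP G) (hMER : S_MER) :
    ∀ (G : Polynomial ℤ) (c : ℤ), 1 ≤ G.natDegree → c ≠ 0 → S_AP G c := by
  intro G c hG hc K ε hK hε
  set e := G.natDegree with he
  obtain ⟨κ, hκ, hEE⟩ := hEEB
  obtain ⟨CM, hCM, hM1, -⟩ := hMER
  obtain ⟨Ca, hCa, ka, Ba, hUa⟩ := hU0 c hc (8 * (e + 1)) (by omega)
  obtain ⟨Cb, hCb, kb, Bb, hUb⟩ := hU1 c hc (8 * (e + 1)) (by omega)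
  obtain ⟨CU, hCU, hCUa, hCUb⟩ : ∃ CU : ℝ, 0 < CU ∧ Ca ≤ CU ∧ Cb ≤ CU :=
    ⟨Ca + Cb, by linarith, by linarith, by linarith⟩
  obtain ⟨kU, hkUa, hkUb⟩ : ∃ kU : ℕ, ka ≤ kU ∧ kb ≤ kU := ⟨ka + kb, by omega, by omega⟩
  obtain ⟨C1, hC1, k1, B1, hC⟩ := hCORE (CU + CU) kU (e + 1) K (by linarith) (by omega) hK
  obtain ⟨C2, hC2, k2, B2, hD⟩ := hDIA (CU + CU) kU (e + 1) K (by linarith) (by omega) hK
  obtain ⟨k3, B3, hR⟩ := hRNG (e + 1) K (by omega) hK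
  obtain ⟨KO, hKO, hO⟩ := hOFF G c hG hc
  have hSPG := hSP G hG
  set GG : ℝ := C1 * (C2 + 1) with hGG
  have hG0 : 0 < GG := by positivity
  obtain ⟨k, hk00, hk2, q1, q2, q3⟩ := choose_k KO (kU + k1 + k2 + k3 + KO) hKO (4 * K * CM ^ 4) GG κ
    (C1 / 8) ε hε
  have hkU : kU ≤ k := by omega
  have hk1 : k1 ≤ k := by omega
  have hk2' : k2 ≤ k := by omega
  have hk3 : k3 ≤ k := by omega
  have hkO : KO ≤ k := by omega
  have hkr : (2 : ℝ) ≤ k := by exact_mod_cast hk2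
  have hk0 : (0 : ℝ) < k := by linarith
  have hKr : (1 : ℝ) ≤ K := by exact_mod_cast hK
  obtain ⟨w, hw⟩ : ∃ w : ℕ, w = k ^ 2 := ⟨_, rfl⟩
  have hkw : k ≤ w := by
    rw [hw]
    exact Nat.le_self_pow (by norm_num) k
  have hw4 : 4 ≤ w := by
    rw [hw]
    calc 4 = 2 ^ 2 := by norm_num
      _ ≤ k ^ 2 := Nat.pow_le_pow_left hk2 2
  obtain ⟨ρ, hρ⟩ : ∃ ρ : ℝ, ρ = 1 + 1 / (k : ℝ) ^ 2 := ⟨_, rfl⟩
  have hik : 0 < 1 / (k : ℝ) ^ 2 := by positivity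
  have hik2 : 1 / (k : ℝ) ^ 2 ≤ 1 := by
    rw [div_le_one (by positivity)]
    exact one_le_pow₀ (by linarith)
  have hρ1 : 1 < ρ := by rw [hρ]; linarith
  have hρ2 : ρ ≤ 2 := by rw [hρ]; linarith
  obtain ⟨y, hy⟩ : ∃ y : ℕ, y = ⌈Real.exp ((k : ℝ) ^ 60)⌉₊ := ⟨_, rfl⟩
  have hyl : Real.exp ((k : ℝ) ^ 60) ≤ y := by
    rw [hy]
    exact Nat.le_ceil _
  have hy0 : (0 : ℝ) < y := lt_of_lt_of_le (Real.exp_pos _) hyl
  have hk60 : (1 : ℝ) ≤ (k : ℝ) ^ 60 := one_le_pow₀ (by linarith)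
  obtain ⟨L, hL⟩ : ∃ L : ℝ, L = Real.log y := ⟨_, rfl⟩
  have hL1 : (k : ℝ) ^ 60 ≤ L := by
    rw [hL, Real.le_log_iff_exp_le hy0]
    exact hyl
  have hL2 : L ≤ 2 * (k : ℝ) ^ 60 := by
    rw [hL, ← Real.log_exp (2 * (k : ℝ) ^ 60)]
    apply Real.log_le_log hy0
    have h1 : (y : ℝ) < Real.exp ((k : ℝ) ^ 60) + 1 := by
      rw [hy]
      exact Nat.ceil_lt_add_one (Real.exp_pos _).le
    have h2 : (1 : ℝ) ≤ Real.exp ((k : ℝ) ^ 60) := Real.one_le_exp (by linarith)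
    have h3 : (2 : ℝ) ≤ Real.exp ((k : ℝ) ^ 60) := by
      have := Real.add_one_le_exp ((k : ℝ) ^ 60)
      linarith
    calc (y : ℝ) ≤ Real.exp ((k : ℝ) ^ 60) + 1 := h1.le
      _ ≤ 2 * Real.exp ((k : ℝ) ^ 60) := by linarith
      _ ≤ Real.exp ((k : ℝ) ^ 60) * Real.exp ((k : ℝ) ^ 60) :=
          mul_le_mul_of_nonneg_right h3 (Real.exp_pos _).le
      _ = Real.exp (2 * (k : ℝ) ^ 60) := by
          rw [← Real.exp_add]
          congr 1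
          ring
  have hLone : 1 ≤ L := hk60.trans hL1
  have hwy : w ≤ y := by
    have h1 : (w : ℝ) ≤ y := by
      rw [hw]
      push_cast
      calc (k : ℝ) ^ 2 ≤ (k : ℝ) ^ 60 := pow_le_pow_right₀ (by linarith) (by norm_num)
        _ ≤ Real.exp ((k : ℝ) ^ 60) := by
            have := Real.add_one_le_exp ((k : ℝ) ^ 60)
            linarith
        _ ≤ y := hyl
    exact_mod_cast h1
  obtain ⟨M0, hM01, hM0⟩ := choose_M0 (CB := C1) hk2 hLone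
  -- the sieve product
  have hVp := VW_pos w y
  have hV : (VW w y)⁻¹ ≤ CM * L := by
    have h1 := (hM1 w y (by omega) hwy).2
    have h2 : (1 : ℝ) ≤ Real.log w := by
      have h3 : Real.log 4 ≤ Real.log w := Real.log_le_log (by norm_num) (by exact_mod_cast hw4)
      have h4 : Real.log 4 = 2 * Real.log 2 := by
        rw [show (4 : ℝ) = 2 ^ 2 by norm_num, Real.log_pow]
        push_cast
        ring
      have h5 := Real.log_two_gt_d9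
      linarith
    rw [← hL] at h1
    have h3 : L / Real.log w ≤ L := div_le_self (by linarith) h2
    exact h1.trans (mul_le_mul_of_nonneg_left h3 (by linarith))
  have hCML : 1 ≤ CM * L := one_le_mul_of_one_le_of_one_le hCM hLone
  have hV4 : (VW w y)⁻¹ ^ 4 ≤ (CM * L) ^ 4 := pow_le_pow_left₀ (by positivity) hV 4
  obtain ⟨ε1, hε1⟩ : ∃ ε1 : ℝ, ε1 = 1 / (8 * K * (CM * L) ^ 4) := ⟨_, rfl⟩
  have hCML0 : 0 < CM * L := by linarith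
  have hε1p : 0 < ε1 := by
    rw [hε1]
    positivity
  obtain ⟨δ, hδ⟩ : ∃ δ : ℝ, δ = KO * L ^ KO * (2 : ℝ) ^ (-((k : ℝ) / KO)) + ε1 := ⟨_, rfl⟩
  have hδ0 : 0 ≤ 2 * δ + 2 * ε1 := by
    rw [hδ]
    have : 0 ≤ KO * L ^ KO * (2 : ℝ) ^ (-((k : ℝ) / KO)) := by positivity
    linarith
  have hδ2 : (2 * δ + 2 * ε1) * (VW w y)⁻¹ ^ 4 * K ≤ 1 := by
    have h1 : (2 * δ + 2 * ε1) * (VW w y)⁻¹ ^ 4 ≤ (2 * δ + 2 * ε1) * (CM * L) ^ 4 :=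
      mul_le_mul_of_nonneg_left hV4 hδ0
    have h2 : (2 * δ + 2 * ε1) * (CM * L) ^ 4 * K =
        1 / 2 * ((KO : ℝ) * (4 * K * CM ^ 4) * L ^ (KO + 4) * (2 : ℝ) ^ (-((k : ℝ) / KO))) + 1 / 2 := by
      have h3 : 4 * ε1 * (CM * L) ^ 4 * K = 1 / 2 := by
        rw [hε1]
        field_simp
        norm_num
      rw [hδ]
      calc _ = 1 / 2 * ((KO : ℝ) * (4 * K * CM ^ 4) * L ^ (KO + 4) * (2 : ℝ) ^ (-((k : ℝ) / KO))) +
            4 * ε1 * (CM * L) ^ 4 * K := by ring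
        _ = _ := by rw [h3]
    have h4 : (KO : ℝ) * (4 * K * CM ^ 4) * L ^ (KO + 4) * (2 : ℝ) ^ (-((k : ℝ) / KO)) ≤ 1 := by
      refine le_trans ?_ q1
      have h5 : L ^ (KO + 4) ≤ (2 * (k : ℝ) ^ 60) ^ (KO + 4) := pow_le_pow_left₀ (by linarith) hL2 _
      exact mul_le_mul_of_nonneg_right (mul_le_mul_of_nonneg_left h5 (by positivity))
        (Real.rpow_nonneg (by norm_num) _)
    have h6 := mul_le_mul_of_nonneg_right h1 (by linarith : (0 : ℝ) ≤ K)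
    linarith
  -- `z'`
  obtain ⟨zO, hzO⟩ := hO k w y M0 (2 * K) hkO (by omega) hwy ε1 hε1p
  obtain ⟨z', hz'⟩ : ∃ z' : ℕ, z' = zO + y := ⟨_, rfl⟩
  obtain ⟨BO, hBO⟩ := hzO z' (by omega)
  have hy1 : 1 ≤ y := by omega
  have hPd : PP w y ∣ PP 0 z' := by
    unfold PP
    apply prod_dvd_prod_of_subset
    intro p hp
    rw [mem_filter, mem_Ioc] at hp ⊢
    exact ⟨⟨by omega, by omega⟩, hp.2⟩
  have hVz := VW_pos 0 z'
  -- the uniform `q0` and `η`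
  obtain ⟨q0, hq0, η, hη, BS, hBS⟩ := uniform3
    (((Icc 1 M0) ×ˢ ((Icc 1 M0) ×ˢ (Icc 1 M0))).filter (fun s : ℕ × ℕ × ℕ =>
      s.1 ∣ PP w y ∧ s.2.1 ∣ s.1 ∧ s.2.2 ∣ s.1 ∧ s.2.1 ≠ s.2.2))
    (fun s q0 η b => ∀ B : ℕ, b ≤ B →
      ∀ (q X Y H : ℕ) (F ψ : ℤ → ℝ), q0 ∣ q → 1 ≤ q → q ∣ H → 1 ≤ H →
      (H : ℝ) ≤ η * (X : ℝ) ^ G.natDegree → H ≤ B →
      B ≤ X ^ (G.natDegree + 2) → Y ≤ 2 * K * B → (∀ n, |ψ n| ≤ 1) →
      (∀ n, ψ (n + (PP 0 z' : ℕ)) = ψ n) →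
      (∀ x : ℕ, 1 ≤ x → x ≤ X → 0 ≤ (B : ℤ) + G.eval ((s.2.1 : ℤ) * x) ∧
        0 ≤ (B : ℤ) + G.eval ((s.2.2 : ℤ) * x) ∧
        5 * (B : ℤ) + G.eval ((s.2.1 : ℤ) * x) ≤ ((s.1 / s.2.1 : ℕ) : ℤ) * Y ∧
        5 * (B : ℤ) + G.eval ((s.2.2 : ℤ) * x) ≤ ((s.1 / s.2.2 : ℕ) : ℤ) * Y) →
      Adm5 F B → ZeroMean F q H →
      |∑ x ∈ Icc 1 X, ∑ t ∈ Icc 1 Y, rg w y x * rg w y t * ψ ((s.1 : ℤ) * x * t) *
        F (((s.1 / s.2.1 : ℕ) : ℤ) * t - G.eval ((s.2.1 : ℤ) * x)) *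
        F (((s.1 / s.2.2 : ℕ) : ℤ) * t - G.eval ((s.2.2 : ℤ) * x))| ≤
      ε1 * VW 0 z' * ((X : ℝ) * Y))
    (by
      intro s q q' η η' b b' h0 h1 h2 h3 B hB q'' X Y H F ψ g1 g2 g3 g4 g5 g6 g7 g8 g9 g10 g11 g12 g13
      exact h3 B (h2.trans hB) q'' X Y H F ψ (h0.trans g1) g2 g3 g4
        (g5.trans (mul_le_mul_of_nonneg_right h1 (by positivity))) g6 g7 g8 g9 g10 g11 g12 g13)
    (by
      rintro ⟨M, m, m'⟩ hs
      simp only [mem_filter, mem_product, mem_Icc] at hs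
      obtain ⟨⟨⟨hMa, hMb⟩, -⟩, hMP, hmM, hmM', hmm⟩ := hs
      exact hSPG (PP 0 z') w y M m m' (2 * K) (ε1 * VW 0 z') (by positivity) (PP_pos 0 z') hPd hMP
        hmM hmM' hmm)
  refine ⟨z' + q0 + 2, fun z hz => ?_⟩
  have hz2 : 2 ≤ z := by omega
  refine ⟨q0 * PP 0 z, Nat.mul_pos hq0 (PP_pos 0 z), dvd_mul_left _ _, ?_, ?_⟩
  · intro p hp hpq
    rcases (Nat.Prime.dvd_mul hp).1 hpq with h | h
    · have := Nat.le_of_dvd hq0 h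
      omega
    · exact (dvd_PP hp h).2
  have hM0r : (1 : ℝ) ≤ M0 := by exact_mod_cast hM01
  refine ⟨η / (4 * M0) ^ G.natDegree, by positivity, ?_⟩
  obtain ⟨BE, hBE⟩ := hEE c k z hk2
  refine ⟨Ba + Bb + B1 + B2 + B3 + BO + BS + BE + 2 + ((4 * M0) ^ (G.natDegree + 2)) ^ (G.natDegree + 1) +
    M0 + M0 ^ k + y ^ k + z ^ k + ⌈Real.exp ((k : ℝ) ^ 2)⌉₊,
    fun B hB T H F hT hTK hTB hRge hqH hH1 hH2 hHB hF hZ => ?_⟩
  have p1 := Nat.zero_le (((4 * M0) ^ (G.natDegree + 2)) ^ (G.natDegree + 1))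
  have p2 := Nat.zero_le (M0 ^ k)
  have p3 := Nat.zero_le (y ^ k)
  have p4 := Nat.zero_le (z ^ k)
  have p5 := Nat.zero_le (⌈Real.exp ((k : ℝ) ^ 2)⌉₊)
  generalize hgE : ⌈Real.exp ((k : ℝ) ^ 2)⌉₊ = e1 at hB p5
  generalize hgM : ((4 * M0) ^ (G.natDegree + 2)) ^ (G.natDegree + 1) = e2 at hB p1
  generalize hgMk : M0 ^ k = e3 at hB p2
  generalize hgy : y ^ k = e4 at hB p3
  generalize hgz : z ^ k = e5 at hB p4
  have hB2 : 2 ≤ B := by omega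
  have hM16 : ((4 * M0) ^ (G.natDegree + 2)) ^ (G.natDegree + 1) ≤ B := by rw [hgM]; omega
  have hM0B : M0 ≤ B := by omega
  have hMkB : M0 ^ k ≤ B := by rw [hgMk]; omega
  have hykB : y ^ k ≤ B := by rw [hgy]; omega
  have hzkB : z ^ k ≤ B := by rw [hgz]; omega
  have hEB : Real.exp ((k : ℝ) ^ 2) ≤ B := by
    refine (Nat.le_ceil _).trans ?_
    rw [hgE]
    exact_mod_cast (by omega : e1 ≤ B)
  have hOB := hBO B (by omega)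
  obtain ⟨z1, hz1a, hz1b⟩ := exists_root k B (by omega)
  obtain ⟨hz12, hEB1⟩ := hBE B (by omega) z1 hz1a hz1b
  have hzz1 : z ≤ z1 := by
    have : z ^ k < (z1 + 1) ^ k := lt_of_le_of_lt hzkB hz1b
    have := lt_of_pow_lt_pow_left₀ k (Nat.zero_le _) this
    omega
  have hpk : ∀ n k' : ℕ, 1 ≤ n → k' ≤ k → n ^ k ≤ B → n ^ k' ≤ B := fun n k' h1 h2 h3 =>
    (Nat.pow_le_pow_right h1 h2).trans h3
  -- the weights
  have hW0 : U0b (CU + CU) kU B (8 * (e + 1)) (NN c z z1) :=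
    U0b_add (U0b_mono hCUa hkUa (hUa B (by omega) z1 (by omega) (hpk z1 ka (by omega) (by omega) hz1a)))
      (U0b_mono hCUa hkUa (hUa B (by omega) z (by omega) (hpk z ka (by omega) (by omega) hzkB)))
  have hW1 : U1b (CU + CU) kU B (8 * (e + 1)) (NN c z z1) :=
    U1b_add (U1b_mono hCUb hkUb (hUb B (by omega) z1 (by omega) (hpk z1 kb (by omega) (by omega) hz1a)))
      (U1b_mono hCUb hkUb (hUb B (by omega) z (by omega) (hpk z kb (by omega) (by omega) hzkB)))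
  have hBp : (0 : ℝ) < B := by exact_mod_cast (by omega : 0 < B)
  have hρB : 1 + 1 / Real.log B ≤ ρ := by
    rw [hρ]
    have h1 : (k : ℝ) ^ 2 ≤ Real.log B := by
      rw [Real.le_log_iff_exp_le hBp]
      exact hEB
    have h2 := one_div_le_one_div_of_le (by positivity) h1
    linarith
  have hTD : T ≤ B ^ (e + 1) := hTB.trans (Nat.le_self_pow (by omega) B)
  have hκ0 : 0 < κ := by linarith
  have hκk : 0 < κ * k := by positivity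
  have hph1 : ∀ u v, |ph G T F u v| ≤ 1 := by
    intro u v
    unfold ph
    split_ifs
    · exact hF.1 _
    · rw [abs_zero]
      exact zero_le_one
  have hph2 := ph_zero hRge hF
  have main := hC B (by omega) (NN c z z1) (fun n => EP c z B n / (κ * k)) (by
    intro n
    rw [abs_div, abs_of_pos hκk, div_le_iff₀ hκk]
    have := hEB1 n
    linarith) hW0 hW1 T w y M0 ρ (ph G T F) hT hTD (by omega) hwy (hpk y k1 hy1 hk1 hykB) hM01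
    (hpk M0 k1 hM01 hk1 hMkB) hρB hρ2 hph1 hph2
  have hdia := hD B (by omega) (NN c z z1) (NN_nonneg c z z1) hW1 T w y M0 ρ hT hTD (by omega) hwy
    (hpk y k2 hy1 hk2' hykB) hM01 (hpk M0 k2 hM01 hk2' hMkB) hρ1 hρ2
  have hTBn : 0 ≤ (T : ℝ) * B := by positivity
  have hOFFAt : ∀ z2 : ℕ, z' ≤ z2 → z2 ^ k ≤ B → OFFAt G c δ z' z2 w y M0 (2 * K) B F := by
    intro z2 hz2a hz2b X Y M m m' h1 h2 h3 h4 h6 h7 h8 h9 h10
    have := hOB z2 X Y M m m' F hz2a hz2b h1 h2 h3 h4 h6 h7 h8 h9 h10 hF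
    rw [← hL, ← hδ] at this
    exact this
  have hSPAt : SPAt G (PP 0 z') (ε1 * VW 0 z') η w y M0 (2 * K) B H F := by
    intro X Y M m m' h1 h2 h3 h4 h5 h6 h7 h8 h9 ψ h10 h11
    have hMpos : 1 ≤ M := Nat.pos_of_dvd_of_pos h1 (PP_pos w y)
    exact hBS (M, m, m') (by
      simp only [mem_filter, mem_product, mem_Icc]
      exact ⟨⟨⟨hMpos, h2⟩, ⟨Nat.pos_of_dvd_of_pos h3 hMpos, (Nat.le_of_dvd hMpos h3).trans h2⟩,
        ⟨Nat.pos_of_dvd_of_pos h4 hMpos, (Nat.le_of_dvd hMpos h4).trans h2⟩⟩, h1, h3, h4, h5⟩) B (by omega)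
      (q0 * PP 0 z) X Y H F ψ (dvd_mul_right _ _) (Nat.mul_pos hq0 (PP_pos 0 z)) hqH hH1 h6 hHB h7 h8
      h10 h11 h9 hF hZ
  have A3 := dd_sum' (φ := ph G T F) hph1 (NN_nonneg c z z1) (w := w) (y := y) (M0 := M0) (T := T)
    (Y := K * B) (ρ := ρ) (δ := 2 * δ + 2 * ε1) (Z := (T : ℝ) * (K * B)) hδ0 (by positivity) hdia
    (by
      intro M hM hMM j hj m hm m' hm' hmm
      exact off_le (hOFFAt z1 (by omega) hz1a) (hOFFAt z (by omega) hzkB) hSPAt (by omega) hT hTB hM16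
        hM0B hρ1 hρ2 hη hH2 hRge hδ0 hM hMM hj
        (hR B (by omega) T M0 M j ρ hT hTD (hpk M0 k3 hM01 hk3 hMkB)
          (Nat.pos_of_dvd_of_pos hM (PP_pos w y)) hMM hρ1 hρ2 hj) hm hm' hmm)
  have hSE : SE G K (EP c z B) B T F = κ * k * ∑ u ∈ Icc 1 T, ∑ v ∈ Icc 1 (K * B),
      ph G T F u v * (EP c z B (u * v) / (κ * k)) := by
    unfold SE
    rw [mul_sum]
    refine sum_congr rfl fun u hu => ?_
    rw [mul_sum]
    refine sum_congr rfl fun v _ => ?_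
    unfold ph
    rw [if_pos (mem_Icc.1 hu)]
    field_simp
  rw [hSE, abs_mul, abs_of_pos hκk]
  set SD := ∑ M ∈ (PP w y).divisors.filter (fun M => M ≤ M0), ∑ j ∈ Wn ρ M,
    DD (ph G T F) (NN c z z1) w y ρ T (K * B) M j with hSD
  have A1' : 1 / (w : ℝ) + (ρ - 1) + Real.log y ^ C1 * Real.exp (-(Real.log M0 / (2 * Real.log y))) ≤
      3 * (1 / (k : ℝ) ^ 2) := by
    rw [← hL, hρ, hw]
    push_cast
    linarith
  have A2' : (ρ - 1) ^ (-(1 / 2) : ℝ) * Real.log w ^ (3 / 5 : ℝ) * Real.log y ^ (-(1 / 12) : ℝ) ≤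
      1 / (k : ℝ) ^ 3 := by
    have h1 := ek_num hk2 hL1
    rw [← hL, hρ, hw]
    exact h1
  have B3' : SD ≤ (C2 + 1) * ((T : ℝ) * B) := by
    refine A3.trans ?_
    have h1 : (2 * δ + 2 * ε1) * (VW w y)⁻¹ ^ 4 * ((T : ℝ) * (K * B)) ≤ 1 * ((T : ℝ) * B) := by
      calc _ = ((2 * δ + 2 * ε1) * (VW w y)⁻¹ ^ 4 * K) * ((T : ℝ) * B) := by ring
        _ ≤ _ := mul_le_mul_of_nonneg_right hδ2 hTBn
    linarith
  have B4 : √(C1 * ((T : ℝ) * B) *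
      ((ρ - 1) ^ (-(1 / 2) : ℝ) * Real.log w ^ (3 / 5 : ℝ) * Real.log y ^ (-(1 / 12) : ℝ))) * √SD ≤
      √(GG / (k : ℝ) ^ 3) * ((B : ℝ) * T) := by
    calc _ ≤ √(C1 * ((T : ℝ) * B) * (1 / (k : ℝ) ^ 3)) * √((C2 + 1) * ((T : ℝ) * B)) :=
          mul_le_mul (Real.sqrt_le_sqrt (mul_le_mul_of_nonneg_left A2' (by positivity)))
            (Real.sqrt_le_sqrt B3') (Real.sqrt_nonneg _) (Real.sqrt_nonneg _)
      _ = √(GG / (k : ℝ) ^ 3 * ((B : ℝ) * T) ^ 2) := by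
          rw [← Real.sqrt_mul (by positivity)]
          congr 1
          rw [hGG]
          ring
      _ = √(GG / (k : ℝ) ^ 3) * ((B : ℝ) * T) := by
          rw [Real.sqrt_mul (by positivity), Real.sqrt_sq (by positivity)]
  have B5 : (k : ℝ) * √(GG / (k : ℝ) ^ 3) = √(GG / k) := by
    have h1 : GG / (k : ℝ) = (k : ℝ) ^ 2 * (GG / (k : ℝ) ^ 3) := by
      field_simp
    rw [h1, Real.sqrt_mul (by positivity), Real.sqrt_sq hk0.le]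
  have B6 : C1 * ((T : ℝ) * B) *
      (1 / (w : ℝ) + (ρ - 1) + Real.log y ^ C1 * Real.exp (-(Real.log M0 / (2 * Real.log y)))) ≤
      3 * C1 / (k : ℝ) ^ 2 * ((B : ℝ) * T) := by
    calc _ ≤ C1 * ((T : ℝ) * B) * (3 * (1 / (k : ℝ) ^ 2)) :=
          mul_le_mul_of_nonneg_left A1' (by positivity)
      _ = _ := by ring
  calc _ ≤ κ * k * (3 * C1 / (k : ℝ) ^ 2 * ((B : ℝ) * T) + √(GG / (k : ℝ) ^ 3) * ((B : ℝ) * T)) :=
        mul_le_mul_of_nonneg_left (main.trans (add_le_add B6 B4)) hκk.le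
    _ = (24 * κ * (C1 / 8) / k + κ * ((k : ℝ) * √(GG / (k : ℝ) ^ 3))) * ((B : ℝ) * T) := by
        field_simp
        ring
    _ ≤ ε * ((B : ℝ) * T) := by
        rw [B5]
        exact mul_le_mul_of_nonneg_right (by linarith) (by positivity)

end

end Pool.Agent.N531.QG
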